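import Mathlib

set_option autoImplicit false

open MeasureTheory Set Filter Topology
open scoped NNReal ENNReal

namespace Pool.Agent.BAN.H21

theorem det1 {E : Type*} [NormedAddCommGroup E] [NormedSpace ℝ E] [FiniteDimensional ℝ E]
    (A : E →L[ℝ] E) (hA : ‖A‖ < 1) :
    0 < (ContinuousLinearMap.id ℝ E + A).det := by
  have hcont : Continuous fun t : ℝ => (ContinuousLinearMap.id ℝ E + t • A).det :=
    ContinuousLinearMap.continuous_det.comp (by fun_prop)
  have hne : ∀ t ∈ Icc (0:ℝ) 1, (ContinuousLinearMap.id ℝ E + t • A).det ≠ 0 := by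
    intro t ht hdet
    have hker : ∃ v : E, v ≠ 0 ∧ (ContinuousLinearMap.id ℝ E + t • A) v = 0 := by
      have hb := LinearMap.bot_lt_ker_of_det_eq_zero (f := ((ContinuousLinearMap.id ℝ E + t • A : E →L[ℝ] E) : E →ₗ[ℝ] E)) hdet
      obtain ⟨v, hv, hv0⟩ := (Submodule.ne_bot_iff _).1 hb.ne'
      exact ⟨v, hv0, by simpa using hv⟩
    obtain ⟨v, hv0, hv⟩ := hker
    have h1 : v = -(t • A v) := by
      have : v + t • A v = 0 := by simpa using hv
      exact eq_neg_of_add_eq_zero_left this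
    have h2 : ‖v‖ ≤ ‖A‖ * ‖v‖ := by
      calc ‖v‖ = ‖t • A v‖ := by rw [h1, norm_neg, ← h1]
        _ = |t| * ‖A v‖ := by rw [norm_smul, Real.norm_eq_abs]
        _ ≤ 1 * (‖A‖ * ‖v‖) := by
            apply mul_le_mul _ (A.le_opNorm v) (norm_nonneg _) zero_le_one
            rw [abs_of_nonneg ht.1]; exact ht.2
        _ = ‖A‖ * ‖v‖ := one_mul _
    have h3 : 0 < ‖v‖ := norm_pos_iff.2 hv0
    nlinarith
  have h0 : (ContinuousLinearMap.id ℝ E + (0:ℝ) • A).det = 1 := by
    simp [ContinuousLinearMap.det]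
  by_contra hneg
  push Not at hneg
  have h1 : (ContinuousLinearMap.id ℝ E + (1:ℝ) • A).det ≤ 0 := by simpa using hneg
  have hmem : (0:ℝ) ∈ Icc ((ContinuousLinearMap.id ℝ E + (1:ℝ) • A).det)
      ((ContinuousLinearMap.id ℝ E + (0:ℝ) • A).det) := ⟨h1, by rw [h0]; exact zero_le_one⟩
  obtain ⟨t, ht, ht0⟩ := intermediate_value_Icc' zero_le_one hcont.continuousOn hmem
  exact hne t ht ht0

/-- Lipschitz maps send null sets to null sets. -/
theorem lip_null {E : Type*} [NormedAddCommGroup E] [NormedSpace ℝ E] [FiniteDimensional ℝ E]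
    [MeasurableSpace E] [BorelSpace E] (μ : Measure E) [μ.IsAddHaarMeasure]
    (F : E → E) (K : ℝ≥0) (hF : LipschitzWith K F) (S : Set E) (h0 : μ S = 0) :
    μ (F '' S) = 0 := by
  have h1 := Measure.isAddLeftInvariant_eq_smul μ (Measure.hausdorffMeasure (Module.finrank ℝ E : ℝ) : Measure E)
  have h2 := Measure.isAddLeftInvariant_eq_smul (Measure.hausdorffMeasure (Module.finrank ℝ E : ℝ) : Measure E) μ
  have h3 : (Measure.hausdorffMeasure (Module.finrank ℝ E : ℝ) : Measure E) S = 0 := by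
    rw [h2]; simp [h0]
  have h4 : (Measure.hausdorffMeasure (Module.finrank ℝ E : ℝ) : Measure E) (F '' S) = 0 := by
    refine le_antisymm ((hF.hausdorffMeasure_image_le (by positivity) S).trans ?_) zero_le
    rw [h3, mul_zero]
  rw [h1]; simp [h4]

theorem cvs {E : Type*} [NormedAddCommGroup E] [NormedSpace ℝ E] [FiniteDimensional ℝ E]
    [MeasurableSpace E] [BorelSpace E] (μ : Measure E) [μ.IsAddHaarMeasure]
    (M : E → E) (K : ℝ≥0) (hK : K < 1) (hM : LipschitzWith K M) (g : E → ℂ) :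
    ∫ x, (((fderiv ℝ (fun y => y + M y) x).det : ℝ) : ℂ) * g (x + M x) ∂μ = ∫ x, g x ∂μ := by
  set F : E → E := fun y => y + M y with hFdef
  have hFL : LipschitzWith (1 + K) F := LipschitzWith.id.add hM
  have happ : ApproximatesLinearOn F ((ContinuousLinearEquiv.refl ℝ E : E ≃L[ℝ] E) : E →L[ℝ] E)
      univ K := by
    intro x _ y _
    have : F x - F y - ((ContinuousLinearEquiv.refl ℝ E : E ≃L[ℝ] E) : E →L[ℝ] E) (x - y)
        = M x - M y := by
      simp [hFdef]; abel
    rw [this]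
    simpa [dist_eq_norm] using hM.dist_le_mul x y
  have hc : Subsingleton E ∨ K < ‖((ContinuousLinearEquiv.refl ℝ E : E ≃L[ℝ] E).symm : E →L[ℝ] E)‖₊⁻¹ := by
    rcases subsingleton_or_nontrivial E with h | h
    · exact Or.inl h
    · right
      have : ‖((ContinuousLinearEquiv.refl ℝ E : E ≃L[ℝ] E).symm : E →L[ℝ] E)‖₊ = 1 := by
        have h1 : ((ContinuousLinearEquiv.refl ℝ E : E ≃L[ℝ] E).symm : E →L[ℝ] E)
            = ContinuousLinearMap.id ℝ E := rfl
        rw [h1]
        exact NNReal.eq (by simp)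
      rw [this]; simpa using hK
  let e : E ≃ₜ E := happ.toHomeomorph F hc
  have he : ∀ x, e x = F x := fun x => rfl
  have hinj : Function.Injective F := e.injective
  have hsurj : Function.Surjective F := e.surjective
  let s : Set E := {x | DifferentiableAt ℝ F x}
  have hs : MeasurableSet s := measurableSet_of_differentiableAt ℝ F
  have hae : ∀ᵐ x ∂μ, x ∈ s := hFL.ae_differentiableAt
  have hsc : μ sᶜ = 0 := hae
  have hIm : μ (F '' s)ᶜ = 0 := by
    rw [← image_compl_eq ⟨hinj, hsurj⟩]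
    exact lip_null μ F _ hFL _ hsc
  have hposdet : ∀ x ∈ s, 0 < (fderiv ℝ F x).det := by
    intro x hx
    have hMd : DifferentiableAt ℝ M x := by
      have : M = fun y => F y - y := by funext y; simp [hFdef]
      rw [this]
      exact DifferentiableAt.sub hx differentiableAt_id
    have hfd : fderiv ℝ F x = ContinuousLinearMap.id ℝ E + fderiv ℝ M x := by
      have := (hasFDerivAt_id (𝕜 := ℝ) x).add hMd.hasFDerivAt
      exact this.fderiv
    rw [hfd]
    refine det1 _ (lt_of_le_of_lt (norm_fderiv_le_of_lipschitz ℝ hM) ?_)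
    exact_mod_cast hK
  have key := integral_image_eq_integral_abs_det_fderiv_smul μ hs
    (fun x hx => (DifferentiableAt.hasFDerivAt hx).hasFDerivWithinAt) hinj.injOn g
  have h1 : ∫ x in F '' s, g x ∂μ = ∫ x, g x ∂μ := by
    rw [Measure.restrict_eq_self_of_ae_mem]
    exact measure_eq_zero_iff_ae_notMem.1 hIm |>.mono fun x hx => by simpa using hx
  have h2 : ∫ x in s, |(fderiv ℝ F x).det| • g (F x) ∂μ
      = ∫ x, (((fderiv ℝ F x).det : ℝ) : ℂ) * g (x + M x) ∂μ := by
    rw [Measure.restrict_eq_self_of_ae_mem hae]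
    refine integral_congr_ae ?_
    filter_upwards [hae] with x hx
    rw [abs_of_pos (hposdet x hx)]
    simp [hFdef]
  rw [← h2, ← key, h1]

end Pool.Agent.BAN.H21
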