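import Mathlib

set_option autoImplicit false

open MeasureTheory Set Filter Topology
open scoped NNReal ENNReal

namespace Pool.Agent.BAN.H21

/-- Holomorphy of a parametric integral with an integrable bound that does not depend on the
parameter. -/
theorem holp {α : Type*} [MeasurableSpace α] (μ : Measure α) (f : ℂ → α → ℂ) (U : Set ℂ)
    (hU : IsOpen U) (hm : ∀ z ∈ U, AEStronglyMeasurable (f z) μ)
    (hd : ∀ a, DifferentiableOn ℂ (fun z => f z a) U)
    (b : α → ℝ) (hb : Integrable b μ) (hfb : ∀ z ∈ U, ∀ a, ‖f z a‖ ≤ b a) :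
    DifferentiableOn ℂ (fun z => ∫ a, f z a ∂μ) U := by
  intro z₀ hz₀
  refine DifferentiableAt.differentiableWithinAt ?_
  obtain ⟨r, hr, hrU⟩ := Metric.isOpen_iff.1 hU z₀ hz₀
  have hball : ∀ z ∈ Metric.ball z₀ (r / 2), ∀ a, ‖deriv (fun w => f w a) z‖ ≤ b a / (r / 4) := by
    intro z hz a
    have hsub : Metric.closedBall z (r / 4) ⊆ U := by
      intro w hw
      apply hrU
      rw [Metric.mem_ball] at hz ⊢
      rw [Metric.mem_closedBall] at hw
      calc dist w z₀ ≤ dist w z + dist z z₀ := dist_triangle _ _ _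
        _ < r / 4 + r / 2 := by linarith
        _ < r := by linarith
    refine Complex.norm_deriv_le_of_forall_mem_sphere_norm_le (by positivity) ?_ ?_
    · refine DifferentiableOn.diffContOnCl ?_
      exact (hd a).mono (Metric.closure_ball_subset_closedBall.trans hsub)
    · intro w hw
      exact hfb w (hsub (Metric.sphere_subset_closedBall hw)) a
  have hmemU : ∀ z ∈ Metric.ball z₀ (r / 2), z ∈ U := fun z hz =>
    hrU (Metric.ball_subset_ball (by linarith) hz)
  have hz₀b : z₀ ∈ Metric.ball z₀ (r / 2) := Metric.mem_ball_self (by positivity)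
  have hdd : ∀ a, ∀ z ∈ Metric.ball z₀ (r / 2),
      HasDerivAt (fun w => f w a) (deriv (fun w => f w a) z) z := by
    intro a z hz
    exact ((hd a).differentiableAt (hU.mem_nhds (hmemU z hz))).hasDerivAt
  have hF'm : AEStronglyMeasurable (fun a => deriv (fun w => f w a) z₀) μ := by
    let zs : ℕ → ℂ := fun n => z₀ + ((r / 4 / (n + 1) : ℝ) : ℂ)
    have hzs : Tendsto zs atTop (𝓝[≠] z₀) := by
      refine tendsto_nhdsWithin_iff.2 ⟨?_, Eventually.of_forall fun n => ?_⟩
      · have h1 : Tendsto (fun n : ℕ => r / 4 / ((n : ℝ) + 1)) atTop (𝓝 0) :=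
          tendsto_const_div_atTop_nhds_zero_nat (r / 4) |>.comp (tendsto_add_atTop_nat 1) |>.congr
            (fun n => by simp)
        have h2 : Tendsto (fun n : ℕ => ((r / 4 / ((n : ℝ) + 1) : ℝ) : ℂ)) atTop (𝓝 ((0 : ℝ) : ℂ)) :=
          (Complex.continuous_ofReal.tendsto 0).comp h1
        have h3 := (tendsto_const_nhds (x := z₀)).add h2
        simp only [Complex.ofReal_zero, add_zero] at h3
        exact h3
      · simp only [zs, mem_compl_iff, mem_singleton_iff, add_eq_left, Complex.ofReal_eq_zero]
        positivity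
    have hzsU : ∀ n, zs n ∈ U := by
      intro n
      apply hrU
      rw [Metric.mem_ball, dist_eq_norm]
      simp only [zs, add_sub_cancel_left, Complex.norm_real, Real.norm_eq_abs]
      rw [abs_of_pos (by positivity)]
      have : r / 4 / ((n : ℝ) + 1) ≤ r / 4 := by
        apply div_le_self (by positivity)
        have : (0:ℝ) ≤ n := Nat.cast_nonneg n
        linarith
      linarith
    refine aestronglyMeasurable_of_tendsto_ae atTop
      (f := fun n a => slope (fun w => f w a) z₀ (zs n)) (fun n => ?_) ?_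
    · simp only [slope_def_module]
      exact ((hm _ (hzsU n)).sub (hm _ hz₀)).const_smul ((zs n - z₀)⁻¹)
    · refine Eventually.of_forall fun a => ?_
      exact (hasDerivAt_iff_tendsto_slope.1 (hdd a z₀ hz₀b)).comp hzs
  have key := hasDerivAt_integral_of_dominated_loc_of_deriv_le (μ := μ)
    (F := f) (F' := fun z a => deriv (fun w => f w a) z) (bound := fun a => b a / (r / 4))
    (s := Metric.ball z₀ (r / 2)) (Metric.ball_mem_nhds z₀ (by positivity))
    (Filter.eventually_of_mem (hU.mem_nhds hz₀) hm)
    (Integrable.mono' hb (hm z₀ hz₀) (Eventually.of_forall (hfb z₀ hz₀)))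
    hF'm (Eventually.of_forall fun a z hz => hball z hz a) (hb.div_const _)
    (Eventually.of_forall fun a z hz => hdd a z hz)
  exact key.2.differentiableAt

end Pool.Agent.BAN.H21
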