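import Mathlib
import Pool.Agent.Helper21_Ban.HOLP
import Pool.Agent.Helper21_Ban.CVS

set_option autoImplicit false

open MeasureTheory Set Filter Topology
open scoped NNReal ENNReal RealInnerProductSpace

namespace Pool.Agent.BAN.H21

section
variable {E : Type*} [NormedAddCommGroup E] [InnerProductSpace ℝ E] [FiniteDimensional ℝ E]

/-- the matrix of the derivative in an orthonormal basis -/
noncomputable def Am (M : E → E) (x : E) :
    Matrix (Fin (Module.finrank ℝ E)) (Fin (Module.finrank ℝ E)) ℝ :=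
  LinearMap.toMatrix (stdOrthonormalBasis ℝ E).toBasis (stdOrthonormalBasis ℝ E).toBasis
    (fderiv ℝ M x : E →ₗ[ℝ] E)

theorem Am_apply (M : E → E) (x : E) (i j : Fin (Module.finrank ℝ E)) :
    Am M x i j = ⟪stdOrthonormalBasis ℝ E i, fderiv ℝ M x (stdOrthonormalBasis ℝ E j)⟫ := by
  simp [Am, LinearMap.toMatrix_apply, OrthonormalBasis.repr_apply_apply]

theorem Am_le (M : E → E) (K : ℝ≥0) (hM : LipschitzWith K M) (x : E)
    (i j : Fin (Module.finrank ℝ E)) : |Am M x i j| ≤ K := by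
  rw [Am_apply]
  calc |⟪stdOrthonormalBasis ℝ E i, fderiv ℝ M x (stdOrthonormalBasis ℝ E j)⟫|
      ≤ ‖stdOrthonormalBasis ℝ E i‖ * ‖fderiv ℝ M x (stdOrthonormalBasis ℝ E j)‖ :=
        abs_real_inner_le_norm _ _
    _ ≤ 1 * (K * 1) := by
        rw [(stdOrthonormalBasis ℝ E).norm_eq_one i]
        gcongr
        calc ‖fderiv ℝ M x (stdOrthonormalBasis ℝ E j)‖
            ≤ ‖fderiv ℝ M x‖ * ‖stdOrthonormalBasis ℝ E j‖ := (fderiv ℝ M x).le_opNorm _
          _ ≤ K * 1 := by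
              rw [(stdOrthonormalBasis ℝ E).norm_eq_one j]
              gcongr
              exact norm_fderiv_le_of_lipschitz ℝ hM
    _ = K := by ring

/-- complex determinant of `1 + z A` -/
noncomputable def Dc (M : E → E) (z : ℂ) (x : E) : ℂ :=
  Matrix.det (1 + z • (Am M x).map (fun r : ℝ => (r : ℂ)))

theorem Dc_real (M : E → E) (t : ℝ) (x : E) :
    Dc M (t : ℂ) x = (((ContinuousLinearMap.id ℝ E + t • fderiv ℝ M x).det : ℝ) : ℂ) := by
  have h1 : (ContinuousLinearMap.id ℝ E + t • fderiv ℝ M x).det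
      = Matrix.det (1 + t • Am M x) := by
    rw [ContinuousLinearMap.det, ← LinearMap.det_toMatrix (stdOrthonormalBasis ℝ E).toBasis]
    have h0 : ((ContinuousLinearMap.id ℝ E + t • fderiv ℝ M x : E →L[ℝ] E) : E →ₗ[ℝ] E)
        = LinearMap.id + t • (fderiv ℝ M x : E →ₗ[ℝ] E) := rfl
    rw [h0, map_add, map_smul, LinearMap.toMatrix_id, Am]
  rw [h1]
  have h2 : ((Matrix.det (1 + t • Am M x) : ℝ) : ℂ)
      = Matrix.det ((Complex.ofRealHom).mapMatrix (1 + t • Am M x)) := by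
    rw [← RingHom.map_det]; rfl
  rw [h2, Dc]
  congr 1
  ext i j
  simp [Matrix.one_apply, apply_ite]

theorem Dc_diff (M : E → E) (x : E) : Differentiable ℂ (fun z => Dc M z x) := by
  unfold Dc
  simp only [Matrix.det_apply]
  refine Differentiable.fun_sum fun σ _ => ?_
  refine Differentiable.const_smul ?_ _
  refine Differentiable.fun_finsetProd fun i _ => ?_
  simp only [Matrix.add_apply, Matrix.smul_apply, smul_eq_mul]
  fun_prop

theorem Dc_meas [MeasurableSpace E] [BorelSpace E] (M : E → E) (z : ℂ) :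
    Measurable (fun x => Dc M z x) := by
  unfold Dc
  simp only [Matrix.det_apply]
  refine Finset.measurable_sum _ fun σ _ => ?_
  refine Measurable.const_smul ?_ _
  refine Finset.measurable_prod _ fun i _ => ?_
  simp only [Matrix.add_apply, Matrix.smul_apply, smul_eq_mul, Matrix.map_apply, Am_apply]
  have h1 : Measurable (fun x => fderiv ℝ M x (stdOrthonormalBasis ℝ E i)) :=
    measurable_fderiv_apply_const ℝ M _
  have h2 : Measurable (fun x => ⟪stdOrthonormalBasis ℝ E (σ i),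
      fderiv ℝ M x (stdOrthonormalBasis ℝ E i)⟫) := by
    exact (continuous_const.inner continuous_id).measurable.comp h1
  have h3 : Measurable (fun x => ((⟪stdOrthonormalBasis ℝ E (σ i),
      fderiv ℝ M x (stdOrthonormalBasis ℝ E i)⟫ : ℝ) : ℂ)) :=
    Complex.measurable_ofReal.comp h2
  exact (h3.const_mul z).const_add _

theorem Dc_le (M : E → E) (K : ℝ≥0) (hM : LipschitzWith K M) (R : ℝ) (z : ℂ)
    (hz : ‖z‖ ≤ R) (x : E) :
    ‖Dc M z x‖ ≤ (Nat.factorial (Module.finrank ℝ E) : ℝ) * (1 + R * K) ^ (Module.finrank ℝ E) := by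
  have hR : 0 ≤ R := (norm_nonneg z).trans hz
  unfold Dc
  rw [Matrix.det_apply]
  calc ‖∑ σ : Equiv.Perm (Fin (Module.finrank ℝ E)), Equiv.Perm.sign σ •
        ∏ i, (1 + z • (Am M x).map (fun r : ℝ => (r : ℂ))) (σ i) i‖
      ≤ ∑ σ : Equiv.Perm (Fin (Module.finrank ℝ E)), ‖Equiv.Perm.sign σ •
        ∏ i, (1 + z • (Am M x).map (fun r : ℝ => (r : ℂ))) (σ i) i‖ := norm_sum_le _ _
    _ ≤ ∑ σ : Equiv.Perm (Fin (Module.finrank ℝ E)), (1 + R * K) ^ (Module.finrank ℝ E) := by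
        refine Finset.sum_le_sum fun σ _ => ?_
        have hs : ‖Equiv.Perm.sign σ • ∏ i, (1 + z • (Am M x).map (fun r : ℝ => (r : ℂ))) (σ i) i‖
            = ‖∏ i, (1 + z • (Am M x).map (fun r : ℝ => (r : ℂ))) (σ i) i‖ := by
          rcases Int.units_eq_one_or (Equiv.Perm.sign σ) with h | h <;> rw [h] <;> simp
        rw [hs, norm_prod]
        calc ∏ i, ‖(1 + z • (Am M x).map (fun r : ℝ => (r : ℂ))) (σ i) i‖
            ≤ ∏ _i : Fin (Module.finrank ℝ E), (1 + R * K) := by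
              refine Finset.prod_le_prod (fun i _ => norm_nonneg _) fun i _ => ?_
              simp only [Matrix.add_apply, Matrix.smul_apply, smul_eq_mul, Matrix.map_apply]
              refine (norm_add_le _ _).trans (add_le_add ?_ ?_)
              · rw [Matrix.one_apply]; split_ifs <;> simp
              · rw [norm_mul, Complex.norm_real, Real.norm_eq_abs]
                exact mul_le_mul hz (Am_le M K hM x _ _) (abs_nonneg _) hR
          _ = (1 + R * K) ^ (Module.finrank ℝ E) := by simp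
    _ = _ := by
        simp [Fintype.card_perm]

/-- exponent -/
noncomputable def Ex (M : E → E) (ξ : E) (z : ℂ) (x : E) : ℂ :=
  -(((‖x‖ ^ 2 : ℝ) : ℂ) + 2 * z * ((⟪x, M x⟫ : ℝ) : ℂ) + z ^ 2 * ((‖M x‖ ^ 2 : ℝ) : ℂ))
    + Complex.I * (((⟪ξ, x⟫ : ℝ) : ℂ) + z * ((⟪ξ, M x⟫ : ℝ) : ℂ))

/-- integrand -/
noncomputable def FF (M : E → E) (ξ : E) (z : ℂ) (x : E) : ℂ :=
  Dc M z x * Complex.exp (Ex M ξ z x)

theorem Ex_real (M : E → E) (ξ : E) (t : ℝ) (x : E) :
    Ex M ξ (t : ℂ) x = -((‖x + t • M x‖ ^ 2 : ℝ) : ℂ)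
      + Complex.I * ((⟪ξ, x + t • M x⟫ : ℝ) : ℂ) := by
  have h1 : ‖x + t • M x‖ ^ 2 = ‖x‖ ^ 2 + 2 * t * ⟪x, M x⟫ + t ^ 2 * ‖M x‖ ^ 2 := by
    rw [norm_add_sq_real, norm_smul, inner_smul_right, mul_pow, Real.norm_eq_abs, sq_abs]; ring
  have h2 : ⟪ξ, x + t • M x⟫ = ⟪ξ, x⟫ + t * ⟪ξ, M x⟫ := by
    rw [inner_add_right, inner_smul_right]
  rw [h1, h2, Ex]
  push_cast
  ring

theorem Ex_re (M : E → E) (ξ : E) (z : ℂ) (x : E) :
    (Ex M ξ z x).re = -(‖x + z.re • M x‖ ^ 2 - z.im ^ 2 * ‖M x‖ ^ 2) - z.im * ⟪ξ, M x⟫ := by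
  have h1 : ‖x + z.re • M x‖ ^ 2 = ‖x‖ ^ 2 + 2 * z.re * ⟪x, M x⟫ + z.re ^ 2 * ‖M x‖ ^ 2 := by
    rw [norm_add_sq_real, norm_smul, inner_smul_right, mul_pow, Real.norm_eq_abs, sq_abs]; ring
  rw [h1, Ex]
  have h2 : (z ^ 2).re = z.re ^ 2 - z.im ^ 2 := by rw [pow_two, Complex.mul_re]; ring
  have h3 : (z ^ 2).im = 2 * z.re * z.im := by rw [pow_two, Complex.mul_im]; ring
  simp only [Complex.add_re, Complex.neg_re, Complex.ofReal_re, Complex.mul_re, Complex.re_ofNat,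
    Complex.im_ofNat, zero_mul, sub_zero, Complex.mul_im, Complex.ofReal_im, mul_zero, add_zero,
    h2, Complex.I_re, Complex.I_im, Complex.add_im, zero_add, one_mul, zero_sub]
  ring

theorem FF_diff (M : E → E) (ξ : E) (x : E) : Differentiable ℂ (fun z => FF M ξ z x) := by
  unfold FF Ex
  refine (Dc_diff M x).mul ?_
  fun_prop

theorem FF_meas [MeasurableSpace E] [BorelSpace E] (M : E → E) (hM : Continuous M) (ξ : E)
    (z : ℂ) : Measurable (fun x => FF M ξ z x) := by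
  unfold FF Ex
  refine (Dc_meas M z).mul (Continuous.measurable ?_)
  fun_prop

theorem integrable_gauss [MeasurableSpace E] [BorelSpace E] (μ : Measure E) [μ.IsAddHaarMeasure]
    (a : ℝ) (ha : 0 < a) : Integrable (fun x : E => Real.exp (-a * ‖x‖ ^ 2)) μ := by
  have h0 : Integrable (fun x : E => Real.exp (-a * ‖x‖ ^ 2)) (volume : Measure E) := by
    have h := GaussianFourier.integrable_cexp_neg_mul_sq_norm_add (V := E) (b := (a : ℂ))
      (by simpa using ha) 0 0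
    have h2 := h.norm
    refine h2.congr (Eventually.of_forall fun x => ?_)
    simp only [zero_mul, add_zero, Complex.norm_exp]
    congr 1
    have : (-(a:ℂ) * (‖x‖:ℂ) ^ 2) = ((-a * ‖x‖ ^ 2 : ℝ) : ℂ) := by push_cast; ring
    rw [this, Complex.ofReal_re]
  rw [Measure.isAddLeftInvariant_eq_smul μ (volume : Measure E)]
  exact h0.smul_measure_nnreal

theorem FF_le (M : E → E) (K : ℝ≥0) (hM : LipschitzWith K M) (h0 : M 0 = 0) (c : ℝ) (hc : 0 < c)
    (h : ∀ t ∈ Icc (0:ℝ) 1, ∀ x, c * ‖x‖ ≤ ‖x + t • M x‖) (ξ : E)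
    (z : ℂ) (hz1 : z.re ∈ Ioo (-(c / (2 * (K + 1)))) (1 + c / (2 * (K + 1))))
    (hz2 : z.im ∈ Ioo (-(min 1 (c / (4 * (K + 1))))) (min 1 (c / (4 * (K + 1))))) (x : E) :
    (Ex M ξ z x).re ≤ -(c ^ 2 / 16) * ‖x‖ ^ 2 + (‖ξ‖ * K) ^ 2 / (c ^ 2 / 4) := by
  have hK : (0:ℝ) ≤ K := K.2
  have hMx : ‖M x‖ ≤ K * ‖x‖ := by
    have := hM.dist_le_mul x 0
    rwa [dist_eq_norm, dist_eq_norm, h0, sub_zero, sub_zero] at this
  rw [Ex_re]
  have hx := norm_nonneg x
  have hMx0 := norm_nonneg (M x)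
  have hξ := norm_nonneg ξ
  -- lower bound of the real part
  have hlow : c / 2 * ‖x‖ ≤ ‖x + z.re • M x‖ := by
    set t' : ℝ := max 0 (min 1 z.re) with ht'
    have ht'mem : t' ∈ Icc (0:ℝ) 1 := ⟨le_max_left _ _, max_le zero_le_one (min_le_left _ _)⟩
    have hδ : 0 < c / (2 * ((K:ℝ) + 1)) := by positivity
    have hdiff : |z.re - t'| ≤ c / (2 * (K + 1)) := by
      rw [abs_le]
      obtain ⟨h1, h2⟩ := hz1
      rcases le_total z.re 0 with h3 | h3
      · have : t' = 0 := by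
          rw [ht', min_eq_right (by linarith), max_eq_left h3]
        rw [this]; constructor <;> linarith
      · rcases le_total z.re 1 with h4 | h4
        · have : t' = z.re := by
            rw [ht', min_eq_right h4, max_eq_right h3]
          rw [this]; constructor <;> linarith
        · have : t' = 1 := by
            rw [ht', min_eq_left h4, max_eq_right zero_le_one]
          rw [this]; constructor <;> linarith
    have h1 := h t' ht'mem x
    have h2 : x + t' • M x = (x + z.re • M x) - (z.re - t') • M x := by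
      rw [sub_smul]; abel
    have h3 : ‖x + t' • M x‖ ≤ ‖x + z.re • M x‖ + |z.re - t'| * ‖M x‖ := by
      rw [h2]
      refine (norm_sub_le _ _).trans ?_
      rw [norm_smul, Real.norm_eq_abs]
    have h4 : |z.re - t'| * ‖M x‖ ≤ c / 2 * ‖x‖ := by
      calc |z.re - t'| * ‖M x‖ ≤ c / (2 * (K + 1)) * (K * ‖x‖) :=
            mul_le_mul hdiff hMx hMx0 hδ.le
        _ = c / 2 * (K / (K + 1)) * ‖x‖ := by field_simp
        _ ≤ c / 2 * 1 * ‖x‖ := by
            gcongr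
            rw [div_le_one (by positivity)]; linarith
        _ = c / 2 * ‖x‖ := by ring
    linarith
  have hsq : c ^ 2 / 4 * ‖x‖ ^ 2 ≤ ‖x + z.re • M x‖ ^ 2 := by
    calc c ^ 2 / 4 * ‖x‖ ^ 2 = (c / 2 * ‖x‖) ^ 2 := by ring
      _ ≤ _ := by gcongr
  have him1 : |z.im| ≤ 1 := by
    rw [abs_le]; exact ⟨by linarith [hz2.1, min_le_left (1:ℝ) (c / (4 * (K + 1)))],
      by linarith [hz2.2, min_le_left (1:ℝ) (c / (4 * (K + 1)))]⟩
  have him2 : |z.im| ≤ c / (4 * (K + 1)) := by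
    rw [abs_le]; exact ⟨by linarith [hz2.1, min_le_right (1:ℝ) (c / (4 * (K + 1)))],
      by linarith [hz2.2, min_le_right (1:ℝ) (c / (4 * (K + 1)))]⟩
  have him3 : z.im ^ 2 * ‖M x‖ ^ 2 ≤ c ^ 2 / 16 * ‖x‖ ^ 2 := by
    have h5 : |z.im| * ‖M x‖ ≤ c / 4 * ‖x‖ := by
      calc |z.im| * ‖M x‖ ≤ c / (4 * (K + 1)) * (K * ‖x‖) :=
            mul_le_mul him2 hMx hMx0 (by positivity)
        _ = c / 4 * (K / (K + 1)) * ‖x‖ := by field_simp
        _ ≤ c / 4 * 1 * ‖x‖ := by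
            gcongr
            rw [div_le_one (by positivity)]; linarith
        _ = c / 4 * ‖x‖ := by ring
    calc z.im ^ 2 * ‖M x‖ ^ 2 = (|z.im| * ‖M x‖) ^ 2 := by rw [mul_pow, sq_abs]
      _ ≤ (c / 4 * ‖x‖) ^ 2 := by gcongr
      _ = c ^ 2 / 16 * ‖x‖ ^ 2 := by ring
  have hlin : -(z.im * ⟪ξ, M x⟫) ≤ ‖ξ‖ * K * ‖x‖ := by
    calc -(z.im * ⟪ξ, M x⟫) ≤ |z.im * ⟪ξ, M x⟫| := neg_le_abs _
      _ = |z.im| * |⟪ξ, M x⟫| := abs_mul _ _
      _ ≤ 1 * (‖ξ‖ * ‖M x‖) := mul_le_mul him1 (abs_real_inner_le_norm _ _) (abs_nonneg _) zero_le_one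
      _ ≤ 1 * (‖ξ‖ * (K * ‖x‖)) := by gcongr
      _ = ‖ξ‖ * K * ‖x‖ := by ring
  set B : ℝ := ‖ξ‖ * K with hB
  have hfin : B * ‖x‖ ≤ c ^ 2 / 8 * ‖x‖ ^ 2 + B ^ 2 / (c ^ 2 / 4) := by
    have h6 : B ^ 2 / (c ^ 2 / 4) = 4 * B ^ 2 / c ^ 2 := by field_simp
    rw [h6]
    have h7 : 0 ≤ (c / 2 * ‖x‖ - 2 * B / c) ^ 2 := sq_nonneg _
    have h8 : (c / 2 * ‖x‖ - 2 * B / c) ^ 2 = c ^ 2 / 4 * ‖x‖ ^ 2 - 2 * (B * ‖x‖) + 4 * B ^ 2 / c ^ 2 := by
      field_simp; ring
    have h9 : 0 ≤ 4 * B ^ 2 / c ^ 2 := by positivity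
    nlinarith
  nlinarith

theorem degc [MeasurableSpace E] [BorelSpace E] (μ : Measure E) [μ.IsAddHaarMeasure]
    (M : E → E) (K : ℝ≥0) (hM : LipschitzWith K M) (h0 : M 0 = 0) (c : ℝ) (hc : 0 < c)
    (h : ∀ t ∈ Icc (0:ℝ) 1, ∀ x, c * ‖x‖ ≤ ‖x + t • M x‖) (ξ : E) :
    ∫ x, (((fderiv ℝ (fun y => y + M y) x).det : ℝ) : ℂ)
        * Complex.exp (-((‖x + M x‖ ^ 2 : ℝ) : ℂ) + Complex.I * ((⟪ξ, x + M x⟫ : ℝ) : ℂ)) ∂μ
      = ∫ x, Complex.exp (-((‖x‖ ^ 2 : ℝ) : ℂ) + Complex.I * ((⟪ξ, x⟫ : ℝ) : ℂ)) ∂μ := by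
  classical
  have hKnn : (0:ℝ) ≤ K := K.2
  set δ : ℝ := c / (2 * (K + 1)) with hδdef
  set η : ℝ := min 1 (c / (4 * (K + 1))) with hηdef
  have hδ : 0 < δ := by positivity
  have hη : 0 < η := by rw [hηdef]; positivity
  set U : Set ℂ := Ioo (-δ) (1 + δ) ×ℂ Ioo (-η) η with hUdef
  have hU : IsOpen U := isOpen_Ioo.reProdIm isOpen_Ioo
  have hUconv : Convex ℝ U := by
    rw [hUdef]
    intro z hz w hw a b ha hb hab
    rw [Complex.mem_reProdIm] at hz hw ⊢
    constructor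
    · have := convex_Ioo (-δ) (1 + δ) hz.1 hw.1 ha hb hab
      simpa using this
    · have := convex_Ioo (-η) η hz.2 hw.2 ha hb hab
      simpa using this
  have hUpre : IsPreconnected U := hUconv.isPreconnected
  set R : ℝ := 1 + δ + η with hR
  have hUR : ∀ z ∈ U, ‖z‖ ≤ R := by
    intro z hz
    rw [hUdef, Complex.mem_reProdIm] at hz
    refine (Complex.norm_le_abs_re_add_abs_im z).trans ?_
    have h1 : |z.re| ≤ 1 + δ := by rw [abs_le]; exact ⟨by linarith [hz.1.1], hz.1.2.le⟩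
    have h2 : |z.im| ≤ η := by rw [abs_le]; exact ⟨hz.2.1.le, hz.2.2.le⟩
    linarith
  set D0 : ℝ := (Nat.factorial (Module.finrank ℝ E) : ℝ) * (1 + R * K) ^ (Module.finrank ℝ E)
  set C1 : ℝ := (‖ξ‖ * K) ^ 2 / (c ^ 2 / 4) with hC1
  have hbound : ∀ z ∈ U, ∀ x, ‖FF M ξ z x‖ ≤ D0 * Real.exp C1 * Real.exp (-(c ^ 2 / 16) * ‖x‖ ^ 2) := by
    intro z hz x
    have hz' := hz
    rw [hUdef, Complex.mem_reProdIm] at hz'
    have h1 := FF_le M K hM h0 c hc h ξ z hz'.1 hz'.2 x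
    have h2 := Dc_le M K hM R z (hUR z hz) x
    rw [FF, norm_mul, Complex.norm_exp, mul_assoc, ← Real.exp_add]
    refine mul_le_mul h2 (Real.exp_le_exp.2 ?_) (Real.exp_pos _).le ((norm_nonneg _).trans h2)
    rw [hC1]
    linarith
  have hint : Integrable (fun x : E => D0 * Real.exp C1 * Real.exp (-(c ^ 2 / 16) * ‖x‖ ^ 2)) μ :=
    (integrable_gauss μ (c ^ 2 / 16) (by positivity)).const_mul _
  have hhol : DifferentiableOn ℂ (fun z => ∫ x, FF M ξ z x ∂μ) U :=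
    holp μ (FF M ξ) U hU (fun z _ => (FF_meas M hM.continuous ξ z).aestronglyMeasurable)
      (fun x => (FF_diff M ξ x).differentiableOn) _ hint hbound
  have han : AnalyticOnNhd ℂ (fun z => ∫ x, FF M ξ z x ∂μ) U := hhol.analyticOnNhd hU
  set C : ℂ := ∫ x, Complex.exp (-((‖x‖ ^ 2 : ℝ) : ℂ) + Complex.I * ((⟪ξ, x⟫ : ℝ) : ℂ)) ∂μ with hC
  -- the value for a real parameter
  have hval : ∀ t : ℝ, ∫ x, FF M ξ (t : ℂ) x ∂μ
      = ∫ x, (((fderiv ℝ (fun y => y + t • M y) x).det : ℝ) : ℂ)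
        * Complex.exp (-((‖x + t • M x‖ ^ 2 : ℝ) : ℂ)
          + Complex.I * ((⟪ξ, x + t • M x⟫ : ℝ) : ℂ)) ∂μ := by
    intro t
    refine integral_congr_ae ?_
    filter_upwards [hM.ae_differentiableAt (μ := μ)] with x hx
    rw [FF, Dc_real, Ex_real]
    have : fderiv ℝ (fun y => y + t • M y) x = ContinuousLinearMap.id ℝ E + t • fderiv ℝ M x :=
      ((hasFDerivAt_id (𝕜 := ℝ) x).add (hx.hasFDerivAt.const_smul t)).fderiv
    rw [this]
  have hsmall : ∀ t : ℝ, 0 ≤ t → t * K < 1 → ∫ x, FF M ξ (t : ℂ) x ∂μ = C := by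
    intro t ht0 htK
    rw [hval t]
    obtain ⟨tn, htn⟩ : ∃ tn : ℝ≥0, (tn : ℝ) = t := ⟨⟨t, ht0⟩, rfl⟩
    have hL : LipschitzWith (tn * K) (fun y => t • M y) := by
      refine LipschitzWith.of_dist_le_mul fun x y => ?_
      rw [dist_smul₀, Real.norm_eq_abs, abs_of_nonneg ht0]
      have := hM.dist_le_mul x y
      calc t * dist (M x) (M y) ≤ t * (K * dist x y) := mul_le_mul_of_nonneg_left this ht0
        _ = ((tn * K : ℝ≥0) : ℝ) * dist x y := by rw [NNReal.coe_mul, htn, mul_assoc]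
    have hK1 : tn * K < 1 := by
      rw [← NNReal.coe_lt_coe, NNReal.coe_mul, htn, NNReal.coe_one]; exact htK
    have := cvs μ (fun y => t • M y) (tn * K) hK1 hL
      (fun x => Complex.exp (-((‖x‖ ^ 2 : ℝ) : ℂ) + Complex.I * ((⟪ξ, x⟫ : ℝ) : ℂ)))
    exact this
  have h0U : (0:ℂ) ∈ U := by
    rw [hUdef, Complex.mem_reProdIm]
    simp only [Complex.zero_re, Complex.zero_im]
    exact ⟨⟨by linarith, by linarith⟩, ⟨by linarith, hη⟩⟩
  have h1U : (1:ℂ) ∈ U := by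
    rw [hUdef, Complex.mem_reProdIm]
    simp only [Complex.one_re, Complex.one_im]
    exact ⟨⟨by linarith, by linarith⟩, ⟨by linarith, hη⟩⟩
  have hfreq : ∃ᶠ z in 𝓝[≠] (0:ℂ), (fun z => ∫ x, FF M ξ z x ∂μ) z = (fun _ => C) z := by
    have hseq : Tendsto (fun n : ℕ => ((1 / (((n : ℝ) + 1) * (K + 1)) : ℝ) : ℂ)) atTop (𝓝[≠] (0:ℂ)) := by
      refine tendsto_nhdsWithin_iff.2 ⟨?_, Eventually.of_forall fun n => ?_⟩
      · have h1 : Tendsto (fun n : ℕ => (1 / ((n : ℝ) + 1)) * (1 / (K + 1) : ℝ)) atTop (𝓝 (0 * (1 / (K + 1) : ℝ))) :=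
          tendsto_one_div_add_atTop_nhds_zero_nat.mul_const _
        rw [zero_mul] at h1
        have h2 := (Complex.continuous_ofReal.tendsto 0).comp h1
        rw [Complex.ofReal_zero] at h2
        refine h2.congr fun n => ?_
        simp only [Function.comp]
        congr 1
        field_simp
      · simp only [mem_compl_iff, mem_singleton_iff, Complex.ofReal_eq_zero]
        positivity
    refine hseq.frequently (Frequently.of_forall fun n => ?_)
    simp only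
    refine hsmall _ (by positivity) ?_
    have hn : (0:ℝ) ≤ n := Nat.cast_nonneg n
    rw [one_div, inv_mul_lt_iff₀ (by positivity)]
    nlinarith
  have hEq := han.eqOn_of_preconnected_of_frequently_eq (analyticOnNhd_const) hUpre h0U hfreq
  have h1 := hEq h1U
  have h2 := hval 1
  simp only [one_smul] at h2
  rw [← h2]
  simpa using h1

end

end Pool.Agent.BAN.H21
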