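import Mathlib
import Pool.Agent.Helper21_Ban.DEGC

set_option autoImplicit false

open MeasureTheory Set Filter Topology
open scoped NNReal ENNReal RealInnerProductSpace

namespace Pool.Agent.BAN.H21

section
variable {E : Type*} [NormedAddCommGroup E] [InnerProductSpace ℝ E] [FiniteDimensional ℝ E]
  [MeasurableSpace E] [BorelSpace E]

/-- push forward of a measure with density -/
noncomputable def pm (μ : Measure E) (w : E → ℝ≥0) (F : E → E) : Measure E :=
  (μ.withDensity (fun x => (w x : ℝ≥0∞))).map F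

theorem pm_fin (μ : Measure E) (w : E → ℝ≥0) (hint : Integrable (fun x => (w x : ℝ)) μ) (F : E → E) :
    IsFiniteMeasure (pm μ w F) := by
  have h1 : IsFiniteMeasure (μ.withDensity (fun x => (w x : ℝ≥0∞))) := by
    refine isFiniteMeasure_withDensity ?_
    have := hint.lintegral_lt_top
    refine ne_of_lt (lt_of_eq_of_lt ?_ this)
    refine lintegral_congr fun x => ?_
    simp
  exact Measure.isFiniteMeasure_map _ F

theorem pm_int {G : Type*} [NormedAddCommGroup G] [NormedSpace ℝ G] (μ : Measure E)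
    (w : E → ℝ≥0) (hw : Measurable w) (F : E → E) (hF : Measurable F) (ψ : E → G)
    (hψ : Continuous ψ) :
    ∫ y, ψ y ∂(pm μ w F) = ∫ x, (w x : ℝ) • ψ (F x) ∂μ := by
  rw [pm, integral_map hF.aemeasurable hψ.aestronglyMeasurable]
  exact integral_withDensity_eq_integral_smul hw _

theorem deg (μ : Measure E) [μ.IsAddHaarMeasure]
    (F : E → E) (K : ℝ≥0) (hF : LipschitzWith K F) (h0 : F 0 = 0) (c : ℝ) (hc : 0 < c)
    (h : ∀ t ∈ Icc (0:ℝ) 1, ∀ x, c * ‖x‖ ≤ ‖(1 - t) • x + t • F x‖)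
    (g : E → ℝ) (hg : Continuous g) (hgc : HasCompactSupport g) :
    ∫ x, (fderiv ℝ F x).det * g (F x) ∂μ = ∫ x, g x ∂μ := by
  have hFc : Continuous F := hF.continuous
  set M : E → E := fun x => F x - x with hM
  have hML : LipschitzWith (K + 1) M := hF.sub LipschitzWith.id
  have hM0 : M 0 = 0 := by simp [hM, h0]
  have hFM : (fun y => y + M y) = F := by funext y; simp [hM]
  have hFM' : ∀ x, x + M x = F x := fun x => by simp [hM]
  have hMh : ∀ t ∈ Icc (0:ℝ) 1, ∀ x, c * ‖x‖ ≤ ‖x + t • M x‖ := by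
    intro t ht x
    have : x + t • M x = (1 - t) • x + t • F x := by
      simp only [hM, smul_sub, sub_smul, one_smul]; abel
    rw [this]; exact h t ht x
  have hFx : ∀ x, c * ‖x‖ ≤ ‖F x‖ := by
    intro x
    have := h 1 ⟨zero_le_one, le_rfl⟩ x
    simpa using this
  have key : ∀ ξ : E, ∫ x, (((fderiv ℝ F x).det : ℝ) : ℂ)
        * Complex.exp (-((‖F x‖ ^ 2 : ℝ) : ℂ) + Complex.I * ((⟪ξ, F x⟫ : ℝ) : ℂ)) ∂μ
      = ∫ x, Complex.exp (-((‖x‖ ^ 2 : ℝ) : ℂ) + Complex.I * ((⟪ξ, x⟫ : ℝ) : ℂ)) ∂μ := by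
    intro ξ
    have := degc μ M (K + 1) hML hM0 c hc hMh ξ
    rw [hFM] at this
    simpa only [hFM'] using this
  -- bounded Jacobian
  set J : E → ℝ := fun x => (fderiv ℝ F x).det with hJ
  have hJm : Measurable J := ContinuousLinearMap.continuous_det.measurable.comp (measurable_fderiv ℝ F)
  obtain ⟨CJ, hCJ⟩ : ∃ CJ : ℝ, ∀ x, |J x| ≤ CJ := by
    have hcpt : IsCompact (Metric.closedBall (0 : E →L[ℝ] E) K) := isCompact_closedBall _ _
    obtain ⟨CJ, hCJ⟩ := hcpt.exists_bound_of_continuousOn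
      (ContinuousLinearMap.continuous_det (𝕜 := ℝ) (E := E)).continuousOn
    refine ⟨CJ, fun x => ?_⟩
    have := hCJ (fderiv ℝ F x) (by
      rw [mem_closedBall_zero_iff]; exact norm_fderiv_le_of_lipschitz ℝ hF)
    simpa using this
  have hCJ0 : 0 ≤ CJ := (abs_nonneg _).trans (hCJ 0)
  set wp : E → ℝ≥0 := fun x => Real.toNNReal (max (J x) 0 * Real.exp (-‖F x‖ ^ 2)) with hwp
  set wm : E → ℝ≥0 := fun x => Real.toNNReal (max (-J x) 0 * Real.exp (-‖F x‖ ^ 2)) with hwm
  set wg : E → ℝ≥0 := fun x => Real.toNNReal (Real.exp (-‖x‖ ^ 2)) with hwg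
  have hwp' : ∀ x, (wp x : ℝ) = max (J x) 0 * Real.exp (-‖F x‖ ^ 2) := fun x =>
    Real.coe_toNNReal _ (by positivity)
  have hwm' : ∀ x, (wm x : ℝ) = max (-J x) 0 * Real.exp (-‖F x‖ ^ 2) := fun x =>
    Real.coe_toNNReal _ (by positivity)
  have hwg' : ∀ x, (wg x : ℝ) = Real.exp (-‖x‖ ^ 2) := fun x =>
    Real.coe_toNNReal _ (by positivity)
  have hexpm : Measurable fun x => Real.exp (-‖F x‖ ^ 2) := by
    apply Continuous.measurable; fun_prop
  have hwpm : Measurable wp := by
    rw [hwp]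
    exact ((hJm.max measurable_const).mul hexpm).real_toNNReal
  have hwmm : Measurable wm := by
    rw [hwm]
    exact ((hJm.neg.max measurable_const).mul hexpm).real_toNNReal
  have hwgm : Measurable wg := by
    rw [hwg]
    apply Continuous.measurable; fun_prop
  have hgauss : Integrable (fun x : E => CJ * Real.exp (-(c ^ 2) * ‖x‖ ^ 2)) μ :=
    (integrable_gauss μ (c ^ 2) (by positivity)).const_mul _
  have hexple : ∀ x, Real.exp (-‖F x‖ ^ 2) ≤ Real.exp (-(c ^ 2) * ‖x‖ ^ 2) := by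
    intro x
    refine Real.exp_le_exp.2 ?_
    have := hFx x
    have h2 : (c * ‖x‖) ^ 2 ≤ ‖F x‖ ^ 2 := by gcongr
    nlinarith
  have hwpi : Integrable (fun x => (wp x : ℝ)) μ := by
    refine Integrable.mono' hgauss (hwpm.coe_nnreal_real.aestronglyMeasurable)
      (Eventually.of_forall fun x => ?_)
    rw [Real.norm_eq_abs, abs_of_nonneg (wp x).coe_nonneg, hwp']
    have h1 : max (J x) 0 ≤ CJ := max_le ((le_abs_self _).trans (hCJ x)) hCJ0
    exact mul_le_mul h1 (hexple x) (Real.exp_pos _).le hCJ0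
  have hwmi : Integrable (fun x => (wm x : ℝ)) μ := by
    refine Integrable.mono' hgauss (hwmm.coe_nnreal_real.aestronglyMeasurable)
      (Eventually.of_forall fun x => ?_)
    rw [Real.norm_eq_abs, abs_of_nonneg (wm x).coe_nonneg, hwm']
    have h1 : max (-J x) 0 ≤ CJ := max_le ((neg_le_abs _).trans (hCJ x)) hCJ0
    exact mul_le_mul h1 (hexple x) (Real.exp_pos _).le hCJ0
  have hwgi : Integrable (fun x => (wg x : ℝ)) μ := by
    have := integrable_gauss μ 1 one_pos (E := E)
    refine this.congr (Eventually.of_forall fun x => ?_)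
    simp only
    rw [hwg']
    congr 1; ring
  have fp := pm_fin μ wp hwpi F
  have fm := pm_fin μ wm hwmi F
  have fg := pm_fin μ wg hwgi id
  have hmeas : pm μ wp F = pm μ wm F + pm μ wg id := by
    refine Measure.ext_of_charFun (funext fun ξ => ?_)
    have hψ : Continuous fun y : E => Complex.exp (((⟪y, ξ⟫ : ℝ) : ℂ) * Complex.I) := by fun_prop
    have hψb : ∀ y : E, ‖Complex.exp (((⟪y, ξ⟫ : ℝ) : ℂ) * Complex.I)‖ ≤ 1 := fun y =>
      (Complex.norm_exp_ofReal_mul_I _).le
    have hbi : ∀ (ν : Measure E) [IsFiniteMeasure ν],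
        Integrable (fun y : E => Complex.exp (((⟪y, ξ⟫ : ℝ) : ℂ) * Complex.I)) ν := by
      intro ν _
      exact Integrable.of_bound hψ.aestronglyMeasurable 1 (Eventually.of_forall hψb)
    simp only [charFun_apply]
    rw [integral_add_measure (hbi _) (hbi _), pm_int μ wp hwpm F hFc.measurable _ hψ,
      pm_int μ wm hwmm F hFc.measurable _ hψ, pm_int μ wg hwgm id measurable_id _ hψ]
    have hk := key ξ
    have hm1 : AEStronglyMeasurable (fun x => Complex.exp (((⟪F x, ξ⟫ : ℝ) : ℂ) * Complex.I)) μ :=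
      (hψ.comp hFc).aestronglyMeasurable
    have i1 : Integrable (fun x => (wp x : ℝ) • Complex.exp (((⟪F x, ξ⟫ : ℝ) : ℂ) * Complex.I)) μ := by
      refine Integrable.mono' hwpi (hwpi.aestronglyMeasurable.smul hm1) (Eventually.of_forall fun x => ?_)
      rw [norm_smul, Complex.norm_exp_ofReal_mul_I, mul_one, Real.norm_eq_abs, abs_of_nonneg (wp x).coe_nonneg]
    have i2 : Integrable (fun x => (wm x : ℝ) • Complex.exp (((⟪F x, ξ⟫ : ℝ) : ℂ) * Complex.I)) μ := by
      refine Integrable.mono' hwmi (hwmi.aestronglyMeasurable.smul hm1) (Eventually.of_forall fun x => ?_)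
      rw [norm_smul, Complex.norm_exp_ofReal_mul_I, mul_one, Real.norm_eq_abs, abs_of_nonneg (wm x).coe_nonneg]
    rw [← sub_eq_iff_eq_add', ← integral_sub i1 i2]
    have e1 : ∀ x, (wp x : ℝ) • Complex.exp (((⟪F x, ξ⟫ : ℝ) : ℂ) * Complex.I)
        - (wm x : ℝ) • Complex.exp (((⟪F x, ξ⟫ : ℝ) : ℂ) * Complex.I)
        = (((fderiv ℝ F x).det : ℝ) : ℂ)
        * Complex.exp (-((‖F x‖ ^ 2 : ℝ) : ℂ) + Complex.I * ((⟪ξ, F x⟫ : ℝ) : ℂ)) := by
      intro x
      rw [← sub_smul, hwp', hwm', ← sub_mul]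
      have : max (J x) 0 - max (-J x) 0 = J x := by
        rcases le_total (J x) 0 with hh | hh
        · rw [max_eq_right hh, max_eq_left (by linarith)]; ring
        · rw [max_eq_left hh, max_eq_right (by linarith)]; ring
      rw [this, Complex.exp_add, Complex.real_smul, real_inner_comm ξ (F x)]
      push_cast
      rw [mul_comm Complex.I, ← mul_assoc]
    simp only [e1]
    rw [hk]
    refine integral_congr_ae (Eventually.of_forall fun x => ?_)
    simp only [id]
    rw [hwg', Complex.exp_add, Complex.real_smul, real_inner_comm ξ x]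
    push_cast
    rw [mul_comm Complex.I]
  -- integrate g * exp |y|^2
  set ψ : E → ℝ := fun y => g y * Real.exp (‖y‖ ^ 2) with hψdef
  have hψc : Continuous ψ := by fun_prop
  have hψs : HasCompactSupport ψ := hgc.mul_right
  obtain ⟨Cψ, hCψ⟩ : ∃ C, ∀ y, ‖ψ y‖ ≤ C := by
    exact hψc.bounded_above_of_compact_support hψs
  have hbi : ∀ (ν : Measure E) [IsFiniteMeasure ν], Integrable ψ ν := by
    intro ν _
    exact Integrable.of_bound hψc.aestronglyMeasurable Cψ (Eventually.of_forall hCψ)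
  have hfin : ∫ y, ψ y ∂(pm μ wp F) = ∫ y, ψ y ∂(pm μ wm F + pm μ wg id) := by rw [hmeas]
  rw [integral_add_measure (hbi _) (hbi _), pm_int μ wp hwpm F hFc.measurable _ hψc,
      pm_int μ wm hwmm F hFc.measurable _ hψc, pm_int μ wg hwgm id measurable_id _ hψc] at hfin
  have hm1 : AEStronglyMeasurable (fun x => ψ (F x)) μ := (hψc.comp hFc).aestronglyMeasurable
  have i1 : Integrable (fun x => (wp x : ℝ) • ψ (F x)) μ := by
    refine Integrable.mono' (hwpi.mul_const Cψ) (hwpi.aestronglyMeasurable.smul hm1)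
      (Eventually.of_forall fun x => ?_)
    rw [norm_smul, Real.norm_eq_abs, abs_of_nonneg (wp x).coe_nonneg]
    exact mul_le_mul_of_nonneg_left (hCψ _) (wp x).coe_nonneg
  have i2 : Integrable (fun x => (wm x : ℝ) • ψ (F x)) μ := by
    refine Integrable.mono' (hwmi.mul_const Cψ) (hwmi.aestronglyMeasurable.smul hm1)
      (Eventually.of_forall fun x => ?_)
    rw [norm_smul, Real.norm_eq_abs, abs_of_nonneg (wm x).coe_nonneg]
    exact mul_le_mul_of_nonneg_left (hCψ _) (wm x).coe_nonneg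
  rw [← sub_eq_iff_eq_add', ← integral_sub i1 i2] at hfin
  have e1 : ∀ x, (wp x : ℝ) • ψ (F x) - (wm x : ℝ) • ψ (F x) = (fderiv ℝ F x).det * g (F x) := by
    intro x
    rw [← sub_smul, hwp', hwm', ← sub_mul]
    have : max (J x) 0 - max (-J x) 0 = J x := by
      rcases le_total (J x) 0 with hh | hh
      · rw [max_eq_right hh, max_eq_left (by linarith)]; ring
      · rw [max_eq_left hh, max_eq_right (by linarith)]; ring
    rw [this, hψdef, smul_eq_mul]
    simp only
    have h2 : Real.exp (-‖F x‖ ^ 2) * Real.exp (‖F x‖ ^ 2) = 1 := by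
      rw [← Real.exp_add]; simp
    calc J x * Real.exp (-‖F x‖ ^ 2) * (g (F x) * Real.exp (‖F x‖ ^ 2))
        = J x * g (F x) * (Real.exp (-‖F x‖ ^ 2) * Real.exp (‖F x‖ ^ 2)) := by ring
      _ = (fderiv ℝ F x).det * g (F x) := by rw [h2, mul_one]
  simp only [e1] at hfin
  rw [hfin]
  refine integral_congr_ae (Eventually.of_forall fun x => ?_)
  simp only [id]
  rw [hwg', hψdef, smul_eq_mul]
  simp only
  have h2 : Real.exp (-‖x‖ ^ 2) * Real.exp (‖x‖ ^ 2) = 1 := by
    rw [← Real.exp_add]; simp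
  calc Real.exp (-‖x‖ ^ 2) * (g x * Real.exp (‖x‖ ^ 2))
      = g x * (Real.exp (-‖x‖ ^ 2) * Real.exp (‖x‖ ^ 2)) := by ring
    _ = g x := by rw [h2, mul_one]

end

end Pool.Agent.BAN.H21
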