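import Mathlib

set_option autoImplicit false

open MeasureTheory Set Filter Topology
open scoped NNReal ENNReal

namespace Pool.Agent.BAN.H21

/-- A map with null image has zero Jacobian almost everywhere on the set where it is
differentiable. -/
theorem nd_aux {E : Type*} [NormedAddCommGroup E] [NormedSpace ℝ E] [FiniteDimensional ℝ E]
    [MeasurableSpace E] [BorelSpace E] (μ : Measure E) [μ.IsAddHaarMeasure]
    (F : E → E) (F' : E → E →L[ℝ] E) (T : Set E) (hT : MeasurableSet T)
    (hd : ∀ x ∈ T, HasFDerivWithinAt F (F' x) T x)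
    (hdet : ∀ x ∈ T, (F' x).det ≠ 0) (h0 : μ (F '' T) = 0) : μ T = 0 := by
  classical
  let r : (E →L[ℝ] E) → ℝ≥0 := fun A =>
    if h : A.det ≠ 0 then
      (if Subsingleton E then 1 else
        ‖((A.toContinuousLinearEquivOfDetNeZero h).symm : E →L[ℝ] E)‖₊⁻¹ / 2)
    else 1
  have rpos : ∀ A, r A ≠ 0 := by
    intro A
    simp only [r]
    split_ifs with h1 h2
    · exact one_ne_zero
    · have : ‖((A.toContinuousLinearEquivOfDetNeZero h1).symm : E →L[ℝ] E)‖₊ ≠ 0 := by
        have : Nontrivial E := not_subsingleton_iff_nontrivial.1 h2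
        have := (A.toContinuousLinearEquivOfDetNeZero h1).symm.nnnorm_symm_pos
        have h3 := (A.toContinuousLinearEquivOfDetNeZero h1).nnnorm_symm_pos
        exact h3.ne'
      positivity
    · exact one_ne_zero
  obtain ⟨t, A, -, ht, hcov, happ, hA⟩ :=
    exists_partition_approximatesLinearOn_of_hasFDerivWithinAt F T F' hd r rpos
  rcases T.eq_empty_or_nonempty with hemp | hne
  · simp [hemp]
  have hcov' : T ⊆ ⋃ n, (T ∩ t n) := by
    rw [← inter_iUnion]
    exact fun x hx => ⟨hx, hcov hx⟩
  refine measure_mono_null hcov' (measure_iUnion_null fun n => ?_)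
  have hTn : MeasurableSet (T ∩ t n) := hT.inter (ht n)
  obtain ⟨y, hy, hAy⟩ := hA hne n
  have hdetA : (A n).det ≠ 0 := by rw [hAy]; exact hdet y hy
  have hinj : InjOn F (T ∩ t n) := by
    have h1 : ApproximatesLinearOn F
        (((A n).toContinuousLinearEquivOfDetNeZero hdetA : E ≃L[ℝ] E) : E →L[ℝ] E)
        (T ∩ t n) (r (A n)) := by
      have := happ n
      simpa using this
    refine h1.injOn ?_
    by_cases hs : Subsingleton E
    · exact Or.inl hs
    · right
      have : Nontrivial E := not_subsingleton_iff_nontrivial.1 hs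
      have hr : r (A n) =
          ‖(((A n).toContinuousLinearEquivOfDetNeZero hdetA).symm : E →L[ℝ] E)‖₊⁻¹ / 2 := by
        simp only [r, dif_pos hdetA, if_neg hs]
      rw [hr]
      exact half_lt_self (inv_pos.2 ((A n).toContinuousLinearEquivOfDetNeZero hdetA).nnnorm_symm_pos)
  have key := lintegral_abs_det_fderiv_eq_addHaar_image μ hTn
    (fun x hx => (hd x hx.1).mono inter_subset_left) hinj
  have h00 : μ (F '' (T ∩ t n)) = 0 :=
    measure_mono_null (image_mono inter_subset_left) h0
  rw [h00] at key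
  by_contra hpos
  have hpos' : 0 < μ (T ∩ t n) := pos_iff_ne_zero.2 hpos
  have hae : ∀ᵐ x ∂(μ.restrict (T ∩ t n)), ENNReal.ofReal |(F' x).det| = 0 := by
    have hm : AEMeasurable (fun x => ENNReal.ofReal |(F' x).det|) (μ.restrict (T ∩ t n)) :=
      aemeasurable_ofReal_abs_det_fderivWithin μ hTn
        (fun x hx => (hd x hx.1).mono inter_subset_left)
    exact (lintegral_eq_zero_iff' hm).1 key
  have hfalse : ∀ᵐ x ∂(μ.restrict (T ∩ t n)), False := by
    filter_upwards [hae, ae_restrict_mem hTn] with x hx hxT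
    have h2 := abs_pos.2 (hdet x hxT.1)
    rw [ENNReal.ofReal_eq_zero] at hx
    linarith
  rw [eventually_false_iff_eq_bot, ae_eq_bot, Measure.restrict_eq_zero] at hfalse
  exact hpos hfalse

theorem nd {E : Type*} [NormedAddCommGroup E] [NormedSpace ℝ E] [FiniteDimensional ℝ E]
    [MeasurableSpace E] [BorelSpace E] (μ : Measure E) [μ.IsAddHaarMeasure]
    (F : E → E) (S : Set E) (hS : MeasurableSet S) (hF : Continuous F) (h0 : μ (F '' S) = 0) :
    ∀ᵐ x ∂μ, x ∈ S → (fderiv ℝ F x).det = 0 := by
  let T : Set E := {x | x ∈ S ∧ (fderiv ℝ F x).det ≠ 0}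
  have hm : Measurable (fun x => (fderiv ℝ F x).det) :=
    ContinuousLinearMap.continuous_det.measurable.comp (measurable_fderiv ℝ F)
  have hd0 : MeasurableSet {x | DifferentiableAt ℝ F x} := measurableSet_of_differentiableAt ℝ F
  by_cases hsub : Module.finrank ℝ E = 0
  · -- the zero-dimensional case: nonempty S has positive measure
    have : Subsingleton E := Module.finrank_zero_iff.1 hsub
    by_cases hSe : S = ∅
    · simp [hSe]
    · exfalso
      obtain ⟨x, hx⟩ := nonempty_iff_ne_empty.2 hSe
      have : F '' S = univ := eq_univ_of_forall fun y => ⟨x, hx, Subsingleton.elim _ _⟩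
      rw [this] at h0
      exact (isOpen_univ.measure_pos μ ⟨x, mem_univ _⟩).ne' h0
  have hTd : ∀ x ∈ T, DifferentiableAt ℝ F x := by
    intro x hx
    by_contra hcon
    have h1 : fderiv ℝ F x = 0 := fderiv_zero_of_not_differentiableAt hcon
    apply hx.2
    rw [h1]
    have hnt : Nontrivial E := Module.nontrivial_of_finrank_pos (R := ℝ) (Nat.pos_of_ne_zero hsub)
    simp only [ContinuousLinearMap.det, ContinuousLinearMap.toLinearMap_zero]
    exact LinearMap.det_zero''
  have hTm : MeasurableSet T := hS.inter (hm (measurableSet_singleton 0).compl)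
  have hnull : μ T = 0 :=
    nd_aux μ F (fun x => fderiv ℝ F x) T hTm
      (fun x hx => ((hTd x hx).hasFDerivAt).hasFDerivWithinAt) (fun x hx => hx.2)
      (measure_mono_null (image_mono fun x hx => hx.1) h0)
  have : ∀ᵐ x ∂μ, x ∉ T := measure_eq_zero_iff_ae_notMem.1 hnull
  filter_upwards [this] with x hx hxS
  by_contra hne
  exact hx ⟨hxS, hne⟩

end Pool.Agent.BAN.H21
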