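import Pool.Agent.Helper10_BAN.Stmt
import Pool.Agent.Helper21_Ban.ND
import Pool.Agent.Helper21_Ban.DEG

set_option autoImplicit false

open MeasureTheory Set Filter Topology
open scoped NNReal ENNReal RealInnerProductSpace

namespace Pool.Agent.BAN.H21

theorem ndStmt : NDStmt := by
  intro E _ _ _ _ _ μ _ F L S hF hS h0
  rw [ae_restrict_iff' hS]
  exact nd μ F S hS hF.continuous h0

theorem degStmt : DEGStmt := by
  intro E _ _ _ _ _ μ _ F L c hF h0 hc h g hg hgc
  have := deg μ F L hF h0 c hc (fun t ht x => h t ht.1 ht.2 x) g hg hgc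
  rw [← this]
  refine integral_congr_ae (Eventually.of_forall fun x => ?_)
  simp only
  ring

theorem cvsStmt : CVSStmt := by
  intro E _ _ _ _ _ μ _ M K hK hM g _
  have := cvs μ M K hK hM g
  rw [← this]
  refine integral_congr_ae ?_
  filter_upwards [hM.ae_differentiableAt (μ := μ)] with x hx
  have h1 : fderiv ℝ (fun y => y + M y) x = 1 + fderiv ℝ M x :=
    ((hasFDerivAt_id (𝕜 := ℝ) x).add hx.hasFDerivAt).fderiv
  rw [h1]
  ring

end Pool.Agent.BAN.H21
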